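import Pool.Agent.Q296.FP.Dim
import Pool.Agent.Q296.FP.Min

/-!
# Frobenius parabolic complements to a nilpotent orbit in `sl_n`

For every `n ≥ 3` there are an element `e` of the nilpotent orbit `𝒪(λ)`, `λ = (3, 2^(k-2), 1)` for
`n = 2k` and `λ = (3, 2^(k-1))` for `n = 2k + 1`, and a Frobenius parabolic subalgebra `𝔭` of `sl_n`
of minimal dimension with `sl_n = sl_n^e ⊕ 𝔭`. For `𝔭` one can take the standard parabolic subalgebra
whose Levi subalgebra has the simple roots `α_i`, `i ∈ A`, where `A = {2, 4, …, 2k}` for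
`n = 2k + 1`, `A = {2, 4, …, 2p-2, 2p+1, …, 4p-1}` for `n = 4p` and
`A = {2, 4, …, 2p, 2p+3, …, 4p+1}` for `n = 4p + 2`.

The matrix `e` has entries `0` and `1`. Number the basis vectors along the path
`1, n, n-1, 2, 3, n-2, n-3, 4, 5, …` (the meander graph of `𝔭`) as `v_0, v_1, v_2, …`. Then
`e v_(4m) = v_(4m+1) + v_3 + v_7 + … + v_(4m-1)`, `e v_(4m+1) = v_(4m+2) + v_(4m+6) + …`,
`e v_(4m+2) = 0` and `e v_(4m+3) = v_(4m+2)`.
-/

open Module

attribute [local instance 100] LieRing.ofAssociativeRing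

namespace Pool.Agent.Results.MP_8024d7_al.FrobeniusComplement

open Pool.Agent.Q296.FP

/-- **Frobenius parabolic complements.** Let `K` be a field of characteristic `0` and `n ≥ 3`. The
standard parabolic subalgebra `𝔭 = stdParabolic K n (rootSet n)` of `sl_n` is Frobenius, its
dimension `dim 𝔟 + ⌊(n-1)/2⌋` is minimal among all Frobenius parabolic subalgebras of `sl_n`, and
there is a nilpotent `e` of Jordan type `λ` with `sl_n = sl_n^e ⊕ 𝔭`. -/
theorem result (K : Type*) [Field K] [CharZero K] (n : ℕ) (hn : 3 ≤ n) :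
    IsParabolic (stdParabolic K n (rootSet n)) ∧
    IsFrobenius (stdParabolic K n (rootSet n)) ∧
    finrank K (stdParabolic K n (rootSet n)) = (n * (n + 1) / 2 - 1) + (n - 1) / 2 ∧
    (∀ q : LieSubalgebra K (Matrix (Fin n) (Fin n) K), IsParabolic q → IsFrobenius q →
      finrank K (stdParabolic K n (rootSet n)) ≤ finrank K q) ∧
    ∃ e : Matrix (Fin n) (Fin n) K, HasJordanType e (lam n) ∧
      slCent e ⊓ (stdParabolic K n (rootSet n)).toSubmodule = ⊥ ∧
      slCent e ⊔ (stdParabolic K n (rootSet n)).toSubmodule =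
        (LieAlgebra.SpecialLinear.sl (Fin n) K).toSubmodule := by
  refine ⟨std_parabolic K n _, std_frobenius hn, std_finrank hn, ?_,
    eStd K n, eStd_type hn, std_inf hn, std_sup hn⟩
  intro q hq1 hq2
  rw [std_finrank hn]
  exact frob_finrank_ge (by omega) q hq1 hq2

end Pool.Agent.Results.MP_8024d7_al.FrobeniusComplement
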